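import Pool.Agent.Lib.SCI.Iter2

/-! One stage of the iteration. -/

namespace Pool.Agent.Lib.SCI

open Finset WC

namespace Iter

lemma sq_le_pow (u : ℕ) (hu : 4 ≤ u) : u * u ≤ 2 ^ u := by
  induction u, hu using Nat.le_induction with
  | base => norm_num
  | succ u hu ih => rw [pow_succ]; nlinarith

lemma lam_le {C n t T u J : ℕ} {ι : ℝ} (hι : 0 < ι) (hT : 1 ≤ T) (ht : 1 ≤ t) (hC : 1 ≤ C)
    (hJ : J ≤ 2 * T * t) (h1 : C * (n + 1) ≤ 2 ^ u) (h2 : C ^ (2 * T * t ^ 3) ≤ 2 ^ u)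
    (h3 : 2 * (2 * T * t + 1) ≤ 2 ^ u) (h4 : ((8 * C * T + 2 : ℕ) : ℝ) ≤ ι / 4 * t) :
    Lam C (ι / (8 * T)) n (u * t ^ 2) (u * t ^ 2) u J (2 * T * t ^ 3) * (2 * (J + 1)) ≤
      (2 : ℝ) ^ (ι * (u * t ^ 3 : ℕ) / 2) := by
  have hT0 : (0 : ℝ) < T := by exact_mod_cast hT
  have a1 : ((C : ℝ) * (n + 1) * 2 ^ u) ^ (C * (J + 1)) ≤ 2 ^ (2 * u * (C * (J + 1))) := by
    rw [pow_mul (2 : ℝ) (2 * u), two_mul, pow_add]
    have : (C : ℝ) * (n + 1) ≤ 2 ^ u := by exact_mod_cast h1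
    gcongr
  have a2 : ((C : ℝ) * (2 : ℝ) ^ (ι / (8 * T) * u)) ^ (2 * T * t ^ 3) ≤
      2 ^ u * (2 : ℝ) ^ (ι * (u * t ^ 3 : ℕ) / 4) := by
    rw [mul_pow, ← Real.rpow_natCast ((2 : ℝ) ^ (ι / (8 * T) * u)), ← Real.rpow_mul zero_le_two]
    have : (C : ℝ) ^ (2 * T * t ^ 3) ≤ 2 ^ u := by exact_mod_cast h2
    refine mul_le_mul this (le_of_eq ?_) (by positivity) (by positivity)
    congr 1
    push_cast
    field_simp
    ring
  have a3 : 2 * ((J : ℝ) + 1) ≤ 2 ^ u := by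
    have : 2 * (J + 1) ≤ 2 ^ u := le_trans (by omega) h3
    exact_mod_cast this
  have a4 : 2 * u * (C * (J + 1)) + C * (u * t ^ 2 + u * t ^ 2) + u + u ≤
      (8 * C * T + 2) * (u * t ^ 2) := by
    have b1 : J + 1 ≤ 3 * T * t ^ 2 := by
      nlinarith [Nat.mul_pos hT ht, Nat.mul_le_mul_left (T * t) ht]
    have b2 : u ≤ u * t ^ 2 := Nat.le_mul_of_pos_right _ (by positivity)
    have b3 : C * (u * t ^ 2) ≤ C * T * (u * t ^ 2) :=
      Nat.mul_le_mul_right _ (Nat.le_mul_of_pos_right _ hT)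
    nlinarith [Nat.mul_le_mul_left (2 * u * C) b1]
  have a5 : (((8 * C * T + 2) * (u * t ^ 2) : ℕ) : ℝ) ≤ ι * (u * t ^ 3 : ℕ) / 4 := by
    rw [Nat.cast_mul]
    refine (mul_le_mul_of_nonneg_right h4 (Nat.cast_nonneg _)).trans (le_of_eq ?_)
    push_cast; ring
  unfold Lam
  calc _ ≤ 2 ^ (2 * u * (C * (J + 1))) * 2 ^ (C * (u * t ^ 2 + u * t ^ 2)) *
        (2 ^ u * (2 : ℝ) ^ (ι * (u * t ^ 3 : ℕ) / 4)) * 2 ^ u := by gcongr
    _ = 2 ^ (2 * u * (C * (J + 1)) + C * (u * t ^ 2 + u * t ^ 2) + u + u) *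
        (2 : ℝ) ^ (ι * (u * t ^ 3 : ℕ) / 4) := by rw [pow_add, pow_add, pow_add]; ring
    _ ≤ (2 : ℝ) ^ (ι * (u * t ^ 3 : ℕ) / 4) * (2 : ℝ) ^ (ι * (u * t ^ 3 : ℕ) / 4) := by
        refine mul_le_mul_of_nonneg_right ?_ (by positivity)
        rw [← Real.rpow_natCast]
        exact Real.rpow_le_rpow_of_exponent_le one_le_two (le_trans (by exact_mod_cast a4) a5)
    _ = _ := by rw [← Real.rpow_add two_pos]; congr 1; ring

end Iter

open Iter in
theorem blk_ITER : St_ITER := by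
  intro d D e l p ε hd hD hl0 hlD h3 hp hε
  have hDr : (3 : ℝ) ≤ D := by exact_mod_cast hD
  have hp6 : (D : ℝ) ≤ p / 2 := by nlinarith
  set γ : ℝ := min (1 / 8) (l / 3) with hγ
  have hγ0 : 0 < γ := lt_min (by norm_num) (by positivity)
  set ι : ℝ := ε / 2 with hι
  have hι0 : 0 < ι := by positivity
  set A : ℝ := p / γ + 2 with hA
  have hA0 : 0 ≤ p / γ := div_nonneg (by linarith) hγ0.le
  obtain ⟨T, hT⟩ := exists_nat_ge ((3 * p + D + A) / ι + 1)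
  have hB0 : 0 ≤ (3 * p + D + A) / ι := div_nonneg (by linarith) hι0.le
  have hT1 : 1 ≤ T := by exact_mod_cast (by linarith : (1 : ℝ) ≤ T)
  have hT2 : 3 * p + D + A ≤ ι * T := by
    rw [← div_le_iff₀' hι0]; linarith
  refine ⟨ι / (8 * T), by positivity, fun C hC => ?_⟩
  obtain ⟨t, ht⟩ := exists_nat_ge
    (((8 * C * T + 2 : ℕ) : ℝ) / (ι / 4) + 6 * D ^ 2 / ι + 1 / ι + 3 * D ^ 2)
  have q1 : 0 ≤ ((8 * C * T + 2 : ℕ) : ℝ) / (ι / 4) := by positivity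
  have q2 : 0 ≤ 6 * (D : ℝ) ^ 2 / ι := by positivity
  have q3 : 0 ≤ 1 / ι := by positivity
  have q4 : 0 ≤ 3 * (D : ℝ) ^ 2 := by positivity
  have ht1 : ((8 * C * T + 2 : ℕ) : ℝ) ≤ ι / 4 * t := by
    rw [← div_le_iff₀' (by positivity)]; linarith
  have ht2 : 6 * (D : ℝ) ^ 2 ≤ ι * t := by rw [← div_le_iff₀' hι0]; linarith
  have ht3 : 1 ≤ ι * t := by rw [← div_le_iff₀' hι0]; linarith
  have ht4 : 3 * D ^ 2 ≤ t := by exact_mod_cast (by linarith : 3 * (D : ℝ) ^ 2 ≤ t)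
  have ht5 : 1 ≤ t := le_trans (by nlinarith) ht4
  set Q := T * t ^ 3 with hQ
  have hQ0 : 0 < Q := by positivity
  set K := 2 * C * Q + C ^ (2 * T * t ^ 3) + 2 * (2 * T * t + 1) + 4 with hK
  refine ⟨(2 : ℝ) ^ (p * (K * Q : ℕ) + 2 * D), Real.one_le_rpow one_le_two
    (add_nonneg (mul_nonneg (by linarith) (Nat.cast_nonneg _)) (by linarith)), ?_⟩
  intro r h n i E X hh hX htriv hstep hiE hEn hi1 hi2 hE1 hE2
  have hXE := hX E
  have hEi : (0 : ℝ) ≤ (E : ℝ) - i := sub_nonneg.2 (by exact_mod_cast hiE)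
  have hEn' : (E : ℝ) ≤ n := by exact_mod_cast hEn
  have hi0 : (0 : ℝ) ≤ i := Nat.cast_nonneg _
  have hn0 : (0 : ℝ) ≤ n := Nat.cast_nonneg _
  have htE : ∀ i j, i ≤ j → j ≤ n → X i ≤ (2 : ℝ) ^ ((p - 1) * ((j : ℝ) - i)) * X j :=
    fun i j h1 h2 => by
      have := htriv i (j - i) (by omega)
      rwa [Nat.cast_sub h1, Nat.add_sub_cancel' h1] at this
  have mono : ∀ {a b : ℝ}, a ≤ b → (2 : ℝ) ^ a * X E ≤ (2 : ℝ) ^ b * X E := fun hab =>
    mul_le_mul_of_nonneg_right (Real.rpow_le_rpow_of_exponent_le one_le_two hab) hXE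
  have hpe : 0 ≤ ((E : ℝ) - i) * (p / 2 - 1) := mul_nonneg hEi (by linarith)
  have hKQ : (0 : ℝ) ≤ p * (K * Q : ℕ) := mul_nonneg (by linarith) (Nat.cast_nonneg _)
  rw [← Real.rpow_add two_pos]
  rcases lt_or_ge n (K * Q) with hn | hn
  · refine (htE i E hiE hEn).trans (mono ?_)
    have h1 : (n : ℝ) ≤ (K * Q : ℕ) := by exact_mod_cast hn.le
    nlinarith [mul_nonneg hε.le hn0,
      mul_le_mul_of_nonneg_left (by linarith : (E : ℝ) - i ≤ (K * Q : ℕ)) (by linarith : 0 ≤ p)]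
  set u := n / Q with hu
  have hu1 : K ≤ u := (Nat.le_div_iff_mul_le hQ0).2 hn
  have hu2 : u * Q ≤ n := Nat.div_mul_le_self _ _
  have hu3 : n < u * Q + Q := Nat.lt_div_mul_add hQ0
  have hu0 : 1 ≤ u := by omega
  have hu4 : n + 1 ≤ 2 * Q * u := by nlinarith [Nat.mul_le_mul_right Q hu0]
  have hu5 : K * u ≤ 2 ^ u := (Nat.mul_le_mul_right _ hu1).trans (sq_le_pow u (by omega))
  have hu6 : K ≤ 2 ^ u := (Nat.le_mul_of_pos_right _ hu0).trans hu5
  have hCQ : C ≤ C * Q := Nat.le_mul_of_pos_right _ hQ0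
  have htt : t ≤ t ^ 2 := by nlinarith
  set n0 := u * t ^ 3 with hn0d
  have hn0n : (T : ℝ) * n0 ≤ n := by
    have : T * n0 ≤ n := by rw [hn0d]; nlinarith
    exact_mod_cast this
  have hn00 : (0 : ℝ) ≤ n0 := Nat.cast_nonneg _
  have hfin : (3 * p + D + A) * n0 ≤ ι * n := by nlinarith
  have hA2 : 0 ≤ A * n0 := by positivity
  rcases lt_or_ge E n0 with hE | hE
  · refine (htE i E hiE hEn).trans (mono ?_)
    have h1 : (E : ℝ) ≤ n0 := by exact_mod_cast hE.le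
    nlinarith [mul_nonneg hι0.le hn0,
      mul_le_mul_of_nonneg_left (by linarith : (E : ℝ) - i ≤ n0) (by linarith : 0 ≤ p)]
  have hCn : C * (n + 1) ≤ 2 ^ u := by
    have h1 : 2 * C * Q * u ≤ K * u := Nat.mul_le_mul_right _ (by omega)
    calc C * (n + 1) ≤ C * (2 * Q * u) := Nat.mul_le_mul_left C hu4
      _ = 2 * C * Q * u := by ring
      _ ≤ _ := h1.trans hu5
  have hm := main (γ := γ) (θ0 := A * n0) (ι := ι) (n0 := n0) (m1 := u * t ^ 2) (m2 := u)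
    (Z := 2 * T * t ^ 3) hd hD hl0 hlD h3 hp hι0 hγ0.le (min_le_left _ _) (min_le_right _ _) hu0
    (by rw [mul_comm u]; exact Nat.mul_le_mul_right _ (by nlinarith))
    (by rw [hn0d]; nlinarith [Nat.mul_le_mul_right (u * t ^ 2) ht4])
    (by
      rw [hn0d]
      push_cast
      nlinarith [mul_le_mul_of_nonneg_right ht2 (by positivity : (0 : ℝ) ≤ u * t ^ 2)])
    (by
      have : γ * (A * n0) = p * n0 + 2 * γ * n0 := by rw [hA]; field_simp
      rw [this]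
      nlinarith [mul_nonneg hγ0.le hn00])
    (by rw [hA]; nlinarith [mul_nonneg hA0 hn00])
    (fun J hJ => lam_le hι0 hT1 ht5 hC (by
        have h1 : J * (u * t ^ 2) ≤ 2 * T * t * (u * t ^ 2) := by nlinarith
        exact Nat.le_of_mul_le_mul_right h1 (by positivity))
      hCn (by omega) (by omega) ht1)
    (fun z hz => Nat.le_of_mul_le_mul_right (c := u) (by nlinarith) hu0)
    (by
      have h1 : 2 * C ≤ 2 ^ u := by nlinarith [Nat.zero_le (C ^ (2 * T * t ^ 3))]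
      have h2 : 2 * (C : ℝ) ≤ 2 ^ u := by exact_mod_cast h1
      refine h2.trans ?_
      rw [← Real.rpow_natCast]
      refine Real.rpow_le_rpow_of_exponent_le one_le_two ?_
      have h4 : (1 : ℝ) ≤ t := by exact_mod_cast ht5
      push_cast
      nlinarith [mul_le_mul_of_nonneg_left ht3 (by positivity : (0 : ℝ) ≤ u * t),
        mul_le_mul_of_nonneg_left h4 (by positivity : (0 : ℝ) ≤ u)])
    (by
      have h1 : 4 * D ^ 2 ≤ Q := by
        have : t ^ 3 ≤ Q := Nat.le_mul_of_pos_left _ hT1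
        nlinarith [Nat.mul_le_mul ht4 (by nlinarith : 2 ≤ t ^ 2)]
      nlinarith [Nat.mul_le_mul_left u h1, Nat.mul_le_mul_left (D ^ 2) hu0])
    hh hX htriv hstep hEn hE1 hE2 (max i n0) (le_max_right _ _)
    (hi1.trans (Nat.mul_le_mul_left _ (le_max_left _ _))) (max_le hiE hE)
  set j := max i n0 with hj
  have hj1 : (i : ℝ) ≤ j := by exact_mod_cast le_max_left i n0
  have hj2 : (j : ℝ) ≤ i + n0 := by exact_mod_cast (max_le (by omega) (by omega) : j ≤ i + n0)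
  have hj3 : (j : ℝ) ≤ E := by exact_mod_cast (max_le hiE hE : j ≤ E)
  refine (htE i j (le_max_left _ _) ((max_le hiE hE).trans hEn)).trans
    ((mul_le_mul_of_nonneg_left hm (by positivity)).trans ?_)
  rw [← mul_assoc, ← Real.rpow_add two_pos]
  refine mono ?_
  unfold Pot
  have k1 := le_max_left ((r + l / D) * n - D * (j : ℝ) - A * n0) 0
  have k2 : (r : ℝ) * n ≤ D * i := by exact_mod_cast hi1
  have k3 : (D : ℝ) * i ≤ r * n + D := by exact_mod_cast hi2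
  have k4 : (D : ℝ) * E ≤ (r + 1) * n + D := by exact_mod_cast hE2
  have k5 : l * ((E : ℝ) - i) ≤ l / D * n + l := by
    have h0 : (0 : ℝ) < D := by linarith
    have : (E : ℝ) - i ≤ n / D + 1 := by
      rw [div_add_one h0.ne', le_div_iff₀ h0]; nlinarith
    refine (mul_le_mul_of_nonneg_left this hl0.le).trans (le_of_eq ?_)
    ring
  nlinarith [mul_le_mul_of_nonneg_left (by linarith : (j : ℝ) - i ≤ n0) (by linarith : 0 ≤ p - 1),
    mul_le_mul_of_nonneg_left (by linarith : (j : ℝ) - i ≤ n0) (by linarith : (0 : ℝ) ≤ D),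
    mul_le_mul_of_nonneg_right (by linarith : (E : ℝ) - j ≤ E - i)
      (by linarith : 0 ≤ p / 2 - 1 + l),
    mul_le_mul_of_nonneg_right (by linarith : (E : ℝ) - j ≤ n) hι0.le]

end Pool.Agent.Lib.SCI
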