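import Pool.Agent.Lib.WC.Defs

/-! The step inequality of the small cap iteration, written in dyadic levels. -/

namespace Pool.Agent.Lib.SCI

open Finset

/-- The thickness condition `2 ^ h * N ^ (2 k - d - r - 1) ≤ 2 ^ a * (2 ^ b) ^ (k - 1)`,
`N = 2 ^ n`. -/
def Thk (d r h n k : ℕ) (a b : ℤ) : Prop :=
  (h : ℤ) + n * (2 * k - d - r - 1) ≤ a + (k - 1) * b

/-- The loss of one step. -/
noncomputable def Lam (C : ℕ) (ε : ℝ) (n nb m1 m2 J Z : ℕ) : ℝ :=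
  ((C : ℝ) * (n + 1) * 2 ^ m2) ^ (C * (J + 1)) * 2 ^ (C * (nb + m1)) *
    ((C : ℝ) * (2 : ℝ) ^ (ε * m2)) ^ Z

/-- The step inequality for a sequence `X` indexed by levels. -/
def StepIneq (d D r h n : ℕ) (p : ℝ) (C : ℕ) (ε : ℝ) (X : ℕ → ℝ) : Prop :=
  ∀ (i n0 nb m1 m2 J D' Z : ℕ) (k z : ℕ → ℕ) (e : ℕ → ℝ),
    1 ≤ nb → nb ≤ n0 → n0 ≤ i → i + n0 + J * m1 ≤ n → 1 ≤ m2 → 3 * D * m2 ≤ m1 →
    m1 + D * m2 ≤ n0 → (D' = D ∨ D' + 1 = D) →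
    Thk d r h n D' ((n : ℤ) - i - n0) ((n : ℤ) - i) →
    Thk d r h n (D - 1) ((n : ℤ) - i - n0 - J * m1) ((n : ℤ) - i) →
    (∀ j, j < J → (k j = D ∨ k j + 1 = D) ∧ p / 2 ≤ e j ∧ (WC.sd (k j - 1) : ℝ) + 1 ≤ e j ∧
      e j ≤ p - D' ∧ z j ≤ Z ∧ z j * m2 + m1 ≤ n0 + j * m1 ∧
      Thk d r h n (k j) ((n : ℤ) - i - n0 - (j + 1) * m1 - 3 * D * m2) ((n : ℤ) - i - z j * m2)) →
    X i ≤ C * X (i + nb) + Lam C ε n nb m1 m2 J Z *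
      ((2 : ℝ) ^ (n0 * (p / 2 - D') + (n0 + J * m1) * (p / 2 - 1)) * X (i + n0 + J * m1) +
        ∑ j ∈ range J, (2 : ℝ) ^ (n0 * (p - D' - e j) +
          (n0 + j * m1) * (e j - (WC.sd (k j - 1) + 1)) +
          (n0 + j * m1 - z j * m2) * (WC.sd (k j - 1) : ℝ)) * X (i + n0 + j * m1))

/-- The iteration: one stage from the step inequality. -/
def St_ITER : Prop :=
  ∀ (d D e : ℕ) (l p ε : ℝ), d + 1 = D + e → 3 ≤ D → 0 < l → l ≤ D → (D = 3 → 1 ≤ l) →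
    p = D * (D - 1) + 2 * l → 0 < ε → ∃ ε' : ℝ, 0 < ε' ∧ ∀ C : ℕ, 1 ≤ C → ∃ C' : ℝ, 1 ≤ C' ∧
      ∀ (r h n i E : ℕ) (X : ℕ → ℝ), (h : ℝ) ≤ n * (e - l / D) → (∀ i, 0 ≤ X i) →
        (∀ i k, i + k ≤ n → X i ≤ (2 : ℝ) ^ ((p - 1) * k) * X (i + k)) →
        StepIneq d D r h n p C ε' X → i ≤ E → E ≤ n → r * n ≤ D * i → D * i ≤ r * n + D →
        (r + 1) * n ≤ D * E → D * E ≤ (r + 1) * n + D →
        X i ≤ C' * (2 : ℝ) ^ (((E : ℝ) - i) * (p / 2 - 1) + ε * n) * X E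

end Pool.Agent.Lib.SCI
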