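import Pool.Agent.Lib.WC.Bas4
import Pool.Agent.Lib.SCI.IterDefs

/-! The choice of parameters in one step of the iteration. -/

namespace Pool.Agent.Lib.SCI.Iter

open Finset WC

lemma zdiv {Δ m1 m2 : ℕ} (h2 : 1 ≤ m2) (h : m1 ≤ Δ) :
    (Δ - m1) / m2 * m2 + m1 ≤ Δ ∧ (Δ : ℝ) - ((Δ - m1) / m2 : ℕ) * m2 ≤ m1 + m2 := by
  have h1 := Nat.div_mul_le_self (Δ - m1) m2
  have h3 := Nat.lt_div_mul_add (a := Δ - m1) h2
  refine ⟨by omega, ?_⟩
  have h4 : Δ ≤ (Δ - m1) / m2 * m2 + m1 + m2 := by omega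
  have h5 : (Δ : ℝ) ≤ ((Δ - m1) / m2 : ℕ) * m2 + m1 + m2 := by exact_mod_cast h4
  linarith

lemma drop_le (θ θ0 x : ℝ) (hx : 0 ≤ x) : max (θ - θ0) 0 - max (θ - x - θ0) 0 ≤ x := by
  have h1 := le_max_left (θ - x - θ0) 0
  have h2 := le_max_right (θ - x - θ0) 0
  rcases le_total (θ - θ0) 0 with h | h
  · rw [max_eq_right h]; linarith
  · rw [max_eq_left h]; linarith

lemma choice {D : ℕ} {l p γ θ θ0 : ℝ} {n0 m1 m2 Δ D' : ℕ} (hD : 3 ≤ D) (hl0 : 0 < l)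
    (h3 : D = 3 → 1 ≤ l) (hp : p = D * (D - 1) + 2 * l) (hγ0 : 0 ≤ γ) (hγ1 : γ ≤ 1 / 8)
    (hγ2 : γ ≤ l / 3) (hm2 : 1 ≤ m2) (hm : 3 * D * m2 ≤ m1) (hΔ : n0 ≤ Δ)
    (hθ0 : p * n0 ≤ γ * θ0) (hθ1 : 2 * n0 ≤ θ0) (hc : 3 * D ^ 2 * m1 ≤ n0)
    (hD' : D' = if θ0 < θ then D else D - 1) :
    ∃ k z : ℕ, ∃ e : ℝ, (k = D ∨ k + 1 = D) ∧ p / 2 ≤ e ∧ (sd (k - 1) : ℝ) + 1 ≤ e ∧
      e ≤ p - D' ∧ z * m2 + m1 ≤ Δ ∧
      (k = D → (Δ : ℝ) + m1 + 3 * D * m2 + (D - 1) * (z * m2) ≤ θ) ∧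
      n0 * (p - D' - e) + Δ * (e - (sd (k - 1) + 1)) + (Δ - z * m2) * (sd (k - 1) : ℝ) ≤
        Δ * (p / 2 - 1 + l) - (max (θ - θ0) 0 - max (θ - D * Δ - θ0) 0) + 3 * D ^ 2 * m1 := by
  obtain ⟨a, rfl⟩ : ∃ a, D = a + 3 := ⟨D - 3, by omega⟩
  have ha : (0 : ℝ) ≤ a := Nat.cast_nonneg a
  have hs : (sd (a + 3 - 1) : ℝ) = (a + 2) * (a + 3) / 2 := by
    rw [show a + 3 - 1 = a + 2 by omega, sd_cast]; push_cast; ring
  have hs' : (sd (a + 2 - 1) : ℝ) = (a + 1) * (a + 2) / 2 := by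
    rw [show a + 2 - 1 = a + 1 by omega, sd_cast]; push_cast; ring
  have hm1 : m1 ≤ Δ :=
    ((Nat.le_mul_of_pos_left m1 (by positivity)).trans hc).trans hΔ
  obtain ⟨z1, z2⟩ := zdiv hm2 hm1
  set z0 := (Δ - m1) / m2 with hz0
  have z1' : (z0 : ℝ) * m2 + m1 ≤ Δ := by exact_mod_cast z1
  have hmr : 3 * ((a : ℝ) + 3) * m2 ≤ m1 := by exact_mod_cast hm
  have hcr : 3 * ((a : ℝ) + 3) ^ 2 * m1 ≤ n0 := by exact_mod_cast hc
  have hm2r : (0 : ℝ) ≤ m2 := Nat.cast_nonneg _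
  have hm1r : (0 : ℝ) ≤ m1 := Nat.cast_nonneg _
  have hn0r : (0 : ℝ) ≤ n0 := Nat.cast_nonneg _
  have hΔr : (0 : ℝ) ≤ Δ := Nat.cast_nonneg _
  have hm21 : (m2 : ℝ) ≤ m1 := by nlinarith
  have hl : 1 ≤ l ∨ (l < 1 ∧ (1 : ℝ) ≤ a) := by
    rcases le_or_gt 1 l with h | h
    · exact Or.inl h
    · refine Or.inr ⟨h, ?_⟩
      have : a ≠ 0 := fun h0 => absurd (h3 (by omega)) (not_le.2 h)
      exact_mod_cast Nat.one_le_iff_ne_zero.2 this
  push_cast at hp ⊢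
  have hp2 : p / 2 = (a + 2) * (a + 3) / 2 + l := by rw [hp]; ring
  have hpD : (a + 2) * (a + 3) / 2 + 1 ≤ p - (a + 3) := by
    rcases hl with h | h <;> nlinarith
  have hpD2 : p / 2 ≤ p - (a + 3) := by nlinarith
  have hsq : ((a : ℝ) + 2) * (a + 3) / 2 * (2 * m1 + m2) ≤ 3 * (a + 3) ^ 2 * m1 := by
    nlinarith [mul_nonneg ha hm1r, mul_nonneg (mul_nonneg ha ha) hm1r,
      mul_le_mul_of_nonneg_left hm21 (by positivity : (0 : ℝ) ≤ (a + 2) * (a + 3))]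
  have hz : (0 : ℝ) ≤ Δ - z0 * m2 := by linarith
  have hsz : (Δ - z0 * m2) * (((a : ℝ) + 2) * (a + 3) / 2) ≤ 3 * (a + 3) ^ 2 * m1 := by
    refine le_trans ?_ hsq
    rw [mul_comm]
    exact mul_le_mul_of_nonneg_left (by linarith) (by positivity)
  have hsz' : (Δ - z0 * m2) * (((a : ℝ) + 1) * (a + 2) / 2) ≤ 3 * (a + 3) ^ 2 * m1 :=
    le_trans (mul_le_mul_of_nonneg_left (by nlinarith) hz) hsz
  have hmx := le_max_right (θ - (a + 3) * Δ - θ0) 0
  split_ifs at hD' with hθ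
  · subst hD'
    push_cast
    have hθp : 0 ≤ θ := by linarith
    have hγθ : p * n0 ≤ γ * θ := hθ0.trans (mul_le_mul_of_nonneg_left hθ.le hγ0)
    have hmθ : max (θ - θ0) 0 ≤ θ := max_le (by linarith) hθp
    rcases le_or_gt ((a + 3) * (Δ : ℝ)) θ with h1 | h1
    · refine ⟨a + 3, z0, p - (a + 3), Or.inl rfl, hpD2, by rw [hs]; exact hpD, le_rfl, z1,
        fun _ => ?_, ?_⟩
      · nlinarith [mul_le_mul_of_nonneg_left z1' (by positivity : (0 : ℝ) ≤ a + 2),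
          mul_nonneg ha hm1r]
      · have h2 := drop_le θ θ0 ((a + 3) * Δ) (by positivity)
        rw [hs]
        have : (Δ : ℝ) * (p - (a + 3) - ((a + 2) * (a + 3) / 2 + 1)) =
            Δ * (p / 2 - 1 + l) - (a + 3) * Δ := by rw [hp]; ring
        rw [this]
        linarith
    obtain ⟨c0, hc1, hc2, hc3⟩ : ∃ c0 : ℝ, c0 ≤ 3 / 4 ∧
        (∀ x : ℝ, 0 ≤ x → x ≤ c0 * θ →
          x * (max (p / 2) ((a + 2) * (a + 3) / 2 + 1) - (a + 2) * (a + 3) / 2 - 2 * l +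
            (a + 3) / 2) ≤ θ * ((a + 3) / 2 - 1 - γ)) ∧
        (∀ x : ℝ, c0 * θ ≤ x → θ * (1 + γ) ≤ x * (l + (a + 1) * (a + 2) / 2)) := by
      rcases hl with h | ⟨h, h'⟩
      · refine ⟨3 / 4, le_rfl, fun x hx0 hx => ?_, fun x hx => ?_⟩
        · rw [max_eq_left (by linarith), hp2]
          nlinarith [mul_le_mul_of_nonneg_right hx (by positivity : (0 : ℝ) ≤ a + 1),
            mul_le_mul_of_nonneg_left hγ1 hθp, mul_nonneg hθp ha,
            mul_le_mul_of_nonneg_left h hx0]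
        · have hx0 : 0 ≤ x := le_trans (by positivity) hx
          have : (2 : ℝ) ≤ l + (a + 1) * (a + 2) / 2 := by nlinarith
          nlinarith [mul_le_mul_of_nonneg_left this hx0, mul_le_mul_of_nonneg_left hγ1 hθp]
      · refine ⟨1 / 3, by norm_num, fun x hx0 hx => ?_, fun x hx => ?_⟩
        · rw [max_eq_right (by linarith)]
          have h4 : (0 : ℝ) ≤ (a + 3) / 2 + 1 - 2 * l := by linarith
          nlinarith [mul_le_mul_of_nonneg_right hx h4, mul_le_mul_of_nonneg_left hγ2 hθp,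
            mul_le_mul_of_nonneg_left h' hθp, mul_nonneg hθp hl0.le]
        · have hx0 : 0 ≤ x := le_trans (by positivity) hx
          have : (3 : ℝ) + l ≤ l + (a + 1) * (a + 2) / 2 := by nlinarith
          nlinarith [mul_le_mul_of_nonneg_left this hx0, mul_le_mul_of_nonneg_left hγ2 hθp,
            mul_le_mul_of_nonneg_right hx (by linarith : (0 : ℝ) ≤ 3 + l)]
    rcases le_total (Δ : ℝ) (c0 * θ) with h2 | h2
    · set w : ℝ := (θ - Δ) / (a + 2) with hw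
      have hw1 : (a + 2) * w = θ - Δ := by rw [hw]; field_simp
      have hw0 : 0 ≤ w - 2 * m1 := by
        have h4 : θ / 4 ≤ θ - Δ := by nlinarith
        have h5 : ((a : ℝ) + 2) * (2 * m1) ≤ (a + 2) * w := by
          nlinarith [mul_nonneg ha hm1r, mul_nonneg (mul_nonneg ha ha) hm1r]
        have := le_of_mul_le_mul_left h5 (by positivity)
        linarith
      have hm2p : (0 : ℝ) < m2 := by exact_mod_cast hm2
      set z := ⌊(w - 2 * m1) / m2⌋₊ with hzd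
      have hz1 : (z : ℝ) * m2 ≤ w - 2 * m1 := by
        rw [← le_div_iff₀ hm2p]; exact Nat.floor_le (by positivity)
      have hz2 : w - 2 * m1 - m2 ≤ (z : ℝ) * m2 := by
        have := Nat.lt_floor_add_one ((w - 2 * m1) / m2)
        rw [div_lt_iff₀ hm2p] at this
        linarith
      have hwΔ : w ≤ Δ := by
        have h5 : ((a : ℝ) + 2) * w ≤ (a + 2) * Δ := by linarith
        exact le_of_mul_le_mul_left h5 (by positivity)
      refine ⟨a + 3, z, max (p / 2) ((a + 2) * (a + 3) / 2 + 1), Or.inl rfl, le_max_left _ _,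
        by rw [hs]; exact le_max_right _ _, max_le hpD2 hpD, ?_, fun _ => ?_, ?_⟩
      · have : (z : ℝ) * m2 + m1 ≤ Δ := by linarith
        exact_mod_cast this
      · nlinarith [mul_le_mul_of_nonneg_left hz1 (by positivity : (0 : ℝ) ≤ a + 2),
          mul_nonneg ha hm1r]
      · rw [hs]
        have h4 := hc2 Δ hΔr h2
        set e := max (p / 2) (((a : ℝ) + 2) * (a + 3) / 2 + 1) with he
        have he0 : 0 ≤ e := le_trans (by positivity) (le_max_right _ _)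
        have h5 : (n0 : ℝ) * (p - (a + 3) - e) ≤ p * n0 := by nlinarith
        have h6 : (Δ - z * m2) * (((a : ℝ) + 2) * (a + 3) / 2) ≤
            (Δ - (w - 2 * m1 - m2)) * (((a : ℝ) + 2) * (a + 3) / 2) :=
          mul_le_mul_of_nonneg_right (by linarith) (by positivity)
        have h7 : (Δ - (w - 2 * m1 - m2)) * (((a : ℝ) + 2) * (a + 3) / 2) =
            Δ * ((a + 2) * (a + 3) / 2) - (a + 3) / 2 * (θ - Δ) +
              (a + 2) * (a + 3) / 2 * (2 * m1 + m2) := by rw [← hw1]; ring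
        rw [hp2]
        nlinarith
    · refine ⟨a + 2, z0, p / 2, Or.inr rfl, le_rfl, by rw [hs']; nlinarith, hpD2, z1,
        fun h => absurd h (by omega), ?_⟩
      rw [hs']
      have h4 := hc3 Δ h2
      have h5 : (n0 : ℝ) * (p - (a + 3) - p / 2) ≤ p * n0 := by nlinarith
      nlinarith
  · subst hD'
    rw [show a + 3 - 1 = a + 2 by omega]
    push_cast
    refine ⟨a + 2, z0, p - (a + 2), Or.inr rfl, by linarith, by rw [hs']; nlinarith, le_rfl, z1,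
      fun h => absurd h (by omega), ?_⟩
    rw [hs', max_eq_right (by linarith [not_lt.1 hθ])]
    have : (Δ : ℝ) * (p - (a + 2) - ((a + 1) * (a + 2) / 2 + 1)) = Δ * (p / 2 - 1 + l) := by
      rw [hp]; ring
    rw [this]
    linarith

end Pool.Agent.Lib.SCI.Iter
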