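import Pool.Agent.Lib.SCI.Iter1

/-! The downward induction over the levels of one stage. -/

namespace Pool.Agent.Lib.SCI.Iter

open Finset WC

lemma thkD {d D e r h n i : ℕ} {l : ℝ} (hd : d + 1 = D + e) (hh : (h : ℝ) ≤ n * (e - l / D))
    {α β : ℤ} (H : (α : ℝ) + (D - 1) * β ≤ (r + l / D) * n - D * i) :
    Thk d r h n D ((n : ℤ) - i - α) ((n : ℤ) - i - β) := by
  have h1 : (d : ℝ) + 1 = D + e := by exact_mod_cast hd
  have h2 : (h : ℝ) + n * (2 * D - d - r - 1) ≤ (n - i - α) + (D - 1) * (n - i - β) := by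
    have : (d : ℝ) = D + e - 1 := by linarith
    rw [this]; nlinarith
  unfold Thk
  exact_mod_cast h2

lemma thkD1 {d D e r h n E m2 : ℕ} {l : ℝ} (hd : d + 1 = D + e) (hD : 3 ≤ D) (hl : 0 < l)
    (hh : (h : ℝ) ≤ n * (e - l / D)) (hE : D * E ≤ (r + 1) * n + D)
    (hbig : D * (D + 3 * D * m2) ≤ n) {a b : ℤ} (ha : (n : ℤ) - E - 3 * D * m2 ≤ a)
    (hb : (n : ℤ) - E ≤ b) : Thk d r h n (D - 1) a b := by
  have h0 : (h : ℝ) ≤ n * e := hh.trans (mul_le_mul_of_nonneg_left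
    (sub_le_self _ (by positivity)) (Nat.cast_nonneg _))
  have h1 : (h : ℤ) ≤ n * e := by exact_mod_cast h0
  have h2 : (d : ℤ) = D + e - 1 := by omega
  have h3 : (D : ℤ) * E ≤ (r + 1) * n + D := by exact_mod_cast hE
  have h4 : (D : ℤ) * (D + 3 * D * m2) ≤ n := by exact_mod_cast hbig
  have h5 : (3 : ℤ) ≤ D := by exact_mod_cast hD
  unfold Thk
  rw [Nat.cast_sub (by omega), h2]
  push_cast
  have h6 : ((D : ℤ) - 1 - 1) * (n - E) ≤ (D - 1 - 1) * b :=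
    mul_le_mul_of_nonneg_left hb (by linarith)
  have h7 : (D : ℤ) * (n * (D - r - 2)) ≤ D * ((D - 1) * (n - E) - 3 * D * m2) := by
    nlinarith [mul_le_mul_of_nonneg_left h3 (by linarith : (0 : ℤ) ≤ D - 1),
      mul_nonneg (Int.natCast_nonneg r) (Int.natCast_nonneg n)]
  have h8 := le_of_mul_le_mul_left h7 (by linarith)
  nlinarith

lemma theta_le {D r n i E : ℕ} {l : ℝ} (hD : 3 ≤ D) (hl : 0 < l) (hlD : l ≤ D)
    (hi : r * n ≤ D * i) (hE : (r + 1) * n ≤ D * E) :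
    (r + l / D) * n - D * i ≤ l * ((E : ℝ) - i) := by
  have h0 : (0 : ℝ) < D := by exact_mod_cast (by omega : 0 < D)
  have h1 : (r : ℝ) * n ≤ D * i := by exact_mod_cast hi
  have h2 : ((r : ℝ) + 1) * n ≤ D * E := by exact_mod_cast hE
  refine le_of_mul_le_mul_left ?_ h0
  have h3 : (D : ℝ) * ((r + l / D) * n - D * i) = (r * D + l) * n - D * D * i := by
    field_simp
  rw [h3]
  nlinarith [mul_le_mul_of_nonneg_left h2 hl.le,
    mul_nonneg (sub_nonneg.2 hlD) (sub_nonneg.2 h1)]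

/-- The potential. -/
noncomputable def Pot (D r n E n0 : ℕ) (l p ι θ0 : ℝ) (i : ℕ) : ℝ :=
  ((E : ℝ) - i) * (p / 2 - 1 + l + ι) - max ((r + l / D) * n - D * i - θ0) 0 + 2 * p * n0

lemma main {d D e r h n E C n0 m1 m2 Z : ℕ} {l p ι γ ε θ0 : ℝ} {X : ℕ → ℝ}
    (hd : d + 1 = D + e) (hD : 3 ≤ D) (hl0 : 0 < l) (hlD : l ≤ D) (h3 : D = 3 → 1 ≤ l)
    (hp : p = D * (D - 1) + 2 * l) (hι : 0 < ι) (hγ0 : 0 ≤ γ) (hγ1 : γ ≤ 1 / 8)
    (hγ2 : γ ≤ l / 3) (hm2 : 1 ≤ m2) (hm : 3 * D * m2 ≤ m1) (hc : 3 * D ^ 2 * m1 ≤ n0)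
    (hcι : 3 * (D : ℝ) ^ 2 * m1 ≤ ι * n0 / 2) (hθ0 : p * n0 ≤ γ * θ0) (hθ1 : 2 * n0 ≤ θ0)
    (hLam : ∀ J : ℕ, J * m1 ≤ n →
      Lam C ε n m1 m1 m2 J Z * (2 * (J + 1)) ≤ (2 : ℝ) ^ (ι * n0 / 2))
    (hZ : ∀ z : ℕ, z * m2 ≤ n → z ≤ Z) (hC : 2 * (C : ℝ) ≤ (2 : ℝ) ^ (ι * m1))
    (hbig : D * (D + 3 * D * m2) ≤ n) (hh : (h : ℝ) ≤ n * (e - l / D)) (hX : ∀ i, 0 ≤ X i)
    (htriv : ∀ i k, i + k ≤ n → X i ≤ (2 : ℝ) ^ ((p - 1) * k) * X (i + k))
    (hstep : StepIneq d D r h n p C ε X) (hEn : E ≤ n) (hE1 : (r + 1) * n ≤ D * E)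
    (hE2 : D * E ≤ (r + 1) * n + D) (i : ℕ) (hi0 : n0 ≤ i) (hi1 : r * n ≤ D * i) (hiE : i ≤ E) :
    X i ≤ (2 : ℝ) ^ Pot D r n E n0 l p ι θ0 i * X E := by
  induction' hk : E - i using Nat.strong_induction_on with k ih generalizing i
  have hDr : (3 : ℝ) ≤ D := by exact_mod_cast hD
  have hp6 : (D : ℝ) ≤ p / 2 := by nlinarith
  have hyD : (D : ℝ) ≤ p / 2 - 1 + l := by
    rcases eq_or_lt_of_le hD with h | h
    · have := h3 h.symm
      linarith
    · have : (4 : ℝ) ≤ D := by exact_mod_cast h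
      nlinarith
  have hm1 : 1 ≤ m1 := le_trans (Nat.mul_pos (by omega) hm2) hm
  have hm3 : 3 * m1 ≤ n0 := le_trans (Nat.mul_le_mul_right _
    (Nat.le_mul_of_pos_right 3 (by positivity))) hc
  have hmD : D * m2 ≤ m1 := le_trans (Nat.mul_le_mul_right _ (by omega)) hm
  have hXE := hX E
  have hn0r : (0 : ℝ) ≤ n0 := Nat.cast_nonneg _
  have hθ00 : 0 ≤ θ0 := by linarith
  have hEi : (0 : ℝ) ≤ (E : ℝ) - i := sub_nonneg.2 (by exact_mod_cast hiE)
  set θ : ℝ := (r + l / D) * n - D * i with hθ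
  have hlow : ((E : ℝ) - i) * (p / 2 - 1 + ι) + 2 * p * n0 ≤ Pot D r n E n0 l p ι θ0 i := by
    have h1 : max (θ - θ0) 0 ≤ l * ((E : ℝ) - i) :=
      max_le (by linarith [theta_le hD hl0 hlD hi1 hE1]) (by positivity)
    unfold Pot
    nlinarith
  have htE : ∀ j, j ≤ E → X j ≤ (2 : ℝ) ^ ((p - 1) * ((E : ℝ) - j)) * X E := fun j hj => by
    have := htriv j (E - j) (by omega)
    rwa [Nat.cast_sub hj, Nat.add_sub_cancel' hj] at this
  have mono : ∀ {a b : ℝ}, a ≤ b → (2 : ℝ) ^ a * X E ≤ (2 : ℝ) ^ b * X E := fun hab =>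
    mul_le_mul_of_nonneg_right (Real.rpow_le_rpow_of_exponent_le one_le_two hab) hXE
  rcases lt_or_ge E (i + n0) with hc1 | hc1
  · refine (htE i hiE).trans (mono (le_trans ?_ hlow))
    have h1 : (E : ℝ) - i ≤ n0 := by
      have : (E : ℝ) ≤ i + n0 := by exact_mod_cast hc1.le
      linarith
    nlinarith [mul_nonneg hEi (by linarith : 0 ≤ p / 2 - 1 + ι)]
  have hnext : ∀ Δ : ℕ, 1 ≤ Δ → i + Δ ≤ E → X (i + Δ) ≤ (2 : ℝ) ^ (Pot D r n E n0 l p ι θ0 i -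
      Δ * (p / 2 - 1 + l + ι) + (max (θ - θ0) 0 - max (θ - D * Δ - θ0) 0)) * X E := by
    intro Δ h1 h2
    refine (ih (E - (i + Δ)) (by omega) (i + Δ) (by omega)
      (hi1.trans (Nat.mul_le_mul_left _ (by omega))) h2 rfl).trans (mono (le_of_eq ?_))
    unfold Pot
    rw [show (r + l / D) * n - D * ((i + Δ : ℕ) : ℝ) - θ0 = θ - D * Δ - θ0 by
      rw [hθ]; push_cast; ring]
    push_cast
    ring
  set J := (E - i - n0) / m1 with hJ
  have hJ1 : i + n0 + J * m1 ≤ E := by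
    have := Nat.div_mul_le_self (E - i - n0) m1
    rw [← hJ] at this
    omega
  have hJ2 : E ≤ i + n0 + J * m1 + m1 := by
    have := Nat.lt_div_mul_add (a := E - i - n0) hm1
    rw [← hJ] at this
    omega
  set D' := if θ0 < θ then D else D - 1 with hD'
  choose kk zz ee hk1 hk2 hk3 hk4 hk5 hk6 hk7 using fun j : ℕ =>
    choice (Δ := n0 + j * m1) (θ := θ) hD hl0 h3 hp hγ0 hγ1 hγ2 hm2 hm (Nat.le_add_right _ _)
      hθ0 hθ1 hc hD'
  have hz1 : ((i + n0 + J * m1 : ℕ) : ℤ) ≤ E := by exact_mod_cast hJ1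
  push_cast at hz1
  have hm2z : (0 : ℤ) ≤ 3 * D * m2 := by positivity
  have hJz : (0 : ℤ) ≤ J * m1 := by positivity
  have hst := hstep i n0 m1 m1 m2 J D' Z kk zz ee hm1 (by omega) hi0 (hJ1.trans hEn) hm2 hm
    (by omega) (by rw [hD']; split_ifs <;> omega) (by
      rw [hD']
      split_ifs with h1
      · simpa using thkD (r := r) (i := i) (α := n0) (β := 0) hd hh (by
          push_cast
          linarith)
      · exact thkD1 hd hD hl0 hh hE2 hbig (by linarith) (by linarith [Int.natCast_nonneg n0]))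
    (thkD1 hd hD hl0 hh hE2 hbig (by linarith) (by linarith [Int.natCast_nonneg n0]))
    (fun j hj => by
      have h1 : (j + 1) * m1 ≤ J * m1 := Nat.mul_le_mul_right _ hj
      have h2 := hk5 j
      refine ⟨hk1 j, hk2 j, hk3 j, hk4 j, hZ _ (by nlinarith), h2, ?_⟩
      rcases hk1 j with h4 | h4
      · have h5 := hk6 j h4
        rw [h4]
        have := thkD (r := r) (i := i) (α := n0 + (j + 1) * m1 + 3 * D * m2) (β := zz j * m2)
          hd hh (by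
            push_cast at h5 ⊢
            linarith)
        convert this using 1
        ring
      · rw [show kk j = D - 1 by omega]
        have h5 : (((j + 1) * m1 : ℕ) : ℤ) ≤ (J * m1 : ℕ) := by exact_mod_cast h1
        have h6 : ((zz j * m2 + m1 : ℕ) : ℤ) ≤ (n0 + j * m1 : ℕ) := by exact_mod_cast h2
        push_cast at h5 h6
        exact thkD1 hd hD hl0 hh hE2 hbig (by linarith)
          (by nlinarith [Int.natCast_nonneg m1]))
  set P := Pot D r n E n0 l p ι θ0 i with hP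
  have hm1r : (m1 : ℝ) ≤ n0 := by exact_mod_cast (by omega : m1 ≤ n0)
  have hm10 : (0 : ℝ) ≤ m1 := Nat.cast_nonneg _
  have hA : C * X (i + m1) ≤ (2 : ℝ) ^ P * X E / 2 := by
    have h1 := (hnext m1 hm1 (by omega)).trans (mono (b := P - ι * m1) (by
      have := drop_le θ θ0 (D * m1) (by positivity)
      nlinarith))
    rw [Real.rpow_sub two_pos] at h1
    have h2 : (0 : ℝ) < (2 : ℝ) ^ (ι * m1) := by positivity
    have h4 : (0 : ℝ) ≤ (2 : ℝ) ^ P * X E := by positivity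
    calc C * X (i + m1) ≤ C * ((2 : ℝ) ^ P / (2 : ℝ) ^ (ι * m1) * X E) := by gcongr
      _ = (2 * C / (2 : ℝ) ^ (ι * m1)) * ((2 : ℝ) ^ P * X E / 2) := by field_simp
      _ ≤ 1 * ((2 : ℝ) ^ P * X E / 2) := by
        gcongr
        exact (div_le_one h2).2 hC
      _ = _ := one_mul _
  have hT : (2 : ℝ) ^ (n0 * (p / 2 - D') + (n0 + J * m1) * (p / 2 - 1)) * X (i + n0 + J * m1) ≤
      (2 : ℝ) ^ (P - ι * n0 / 2) * X E := by
    refine (mul_le_mul_of_nonneg_left (htE _ hJ1) (by positivity)).trans ?_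
    rw [← mul_assoc, ← Real.rpow_add two_pos]
    refine mono ?_
    have h1 : ((i + n0 + J * m1 : ℕ) : ℝ) ≤ E := by exact_mod_cast hJ1
    have h2 : (E : ℝ) ≤ (i + n0 + J * m1 + m1 : ℕ) := by exact_mod_cast hJ2
    push_cast at h1 h2 ⊢
    have h4 : (0 : ℝ) ≤ J * m1 := by positivity
    have h5 : (0 : ℝ) ≤ n0 * (D' : ℝ) := by positivity
    nlinarith [mul_le_mul_of_nonneg_right (by linarith : (n0 : ℝ) + J * m1 ≤ E - i)
        (by linarith : 0 ≤ p / 2 - 1),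
      mul_le_mul_of_nonneg_left (by linarith : (E : ℝ) - (i + n0 + J * m1) ≤ n0)
        (by linarith : 0 ≤ p - 1),
      mul_le_mul_of_nonneg_left (by linarith : (n0 : ℝ) ≤ E - i) hι.le,
      mul_nonneg hι.le hn0r]
  have hS : ∀ j ∈ range J, (2 : ℝ) ^ (n0 * (p - D' - ee j) +
      (n0 + j * m1) * (ee j - (sd (kk j - 1) + 1)) +
      (n0 + j * m1 - zz j * m2) * (sd (kk j - 1) : ℝ)) * X (i + n0 + j * m1) ≤
      (2 : ℝ) ^ (P - ι * n0 / 2) * X E := by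
    intro j hj
    have h1 : j * m1 ≤ J * m1 := Nat.mul_le_mul_right _ (mem_range.1 hj).le
    have h2 := hnext (n0 + j * m1) (by omega) (by omega)
    rw [← add_assoc] at h2
    refine (mul_le_mul_of_nonneg_left h2 (by positivity)).trans ?_
    rw [← mul_assoc, ← Real.rpow_add two_pos]
    refine mono ?_
    have h4 := hk7 j
    push_cast at h4 ⊢
    have h5 : (0 : ℝ) ≤ ι * (j * m1) := by positivity
    nlinarith
  have hL := hLam J (by omega)
  have hL0 : 0 ≤ Lam C ε n m1 m1 m2 J Z := by unfold Lam; positivity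
  have hsum := add_le_add hT (sum_le_card_nsmul _ _ _ hS)
  rw [card_range, nsmul_eq_mul] at hsum
  refine hst.trans (le_trans (add_le_add hA (mul_le_mul_of_nonneg_left hsum hL0)) ?_)
  have h4 : (0 : ℝ) ≤ (2 : ℝ) ^ (P - ι * n0 / 2) * X E := by positivity
  have h5 : (2 : ℝ) ^ (ι * n0 / 2) * ((2 : ℝ) ^ (P - ι * n0 / 2) * X E) = (2 : ℝ) ^ P * X E := by
    rw [← mul_assoc, ← Real.rpow_add two_pos]; congr 2; ring
  nlinarith [mul_le_mul_of_nonneg_right hL h4]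

end Pool.Agent.Lib.SCI.Iter
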